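import Mathlib
import Pool.Agent.H41.PS.Words

/-! # The digits of the partial sums of `e = ∑ 1 / n!` -/

set_option autoImplicit false

namespace Pool.Agent.Results.MP_7e9a3a_nt.PartialSums

/-- The digit `a_(i+1)` of the fractional part of `x` in base `b` (the expansion that does not end
in an infinite run of the digit `b - 1`). -/
noncomputable def digit (b : ℕ) (x : ℝ) (i : ℕ) : ℤ := ⌊x * (b : ℝ) ^ (i + 1)⌋ % (b : ℤ)

/-- The partial sum `1 / 0! + 1 / 1! + ⋯ + 1 / N!` of the series of `e`. -/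
noncomputable def partialSum (N : ℕ) : ℝ := ∑ n ∈ Finset.range (N + 1), 1 / (n.factorial : ℝ)

/-- **Theorem.** For every base `b` there is an `N₀` such that for all `N ≥ N₀` the rational
approximation `1 / 0! + 1 / 1! + ⋯ + 1 / N!` of `e` is nearly normal to base `b`: in its base `b`
expansion, in the first `L` places with `L ≥ (N!) ^ 2`, each word `w` of each length `k` occurs with
frequency `b ^ (-k)` up to an error of at most `(log N) ^ (- N / 4)`. -/
theorem result (b : ℕ) (hb : 2 ≤ b) : ∃ N₀ : ℕ, ∀ N : ℕ, N₀ ≤ N → ∀ L : ℕ,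
    N.factorial ^ 2 ≤ L → ∀ (k : ℕ) (w : Fin k → Fin b),
    |(((Finset.range L).filter fun i : ℕ =>
        ∀ j : Fin k, digit b (partialSum N) (i + (j : ℕ)) = (((w j : ℕ)) : ℤ)).card : ℝ) / (L : ℝ) -
      1 / (b : ℝ) ^ k| ≤ Real.exp (-(N * Real.log (Real.log N) / 4)) :=
  H41.PS.words b hb

end Pool.Agent.Results.MP_7e9a3a_nt.PartialSums
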