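import Mathlib
import Pool.Agent.H41.Rand.Ev2

/-! # Random deletions of the terms of `e = ∑ 1 / n!` -/

set_option autoImplicit false

open MeasureTheory ProbabilityTheory Filter

namespace Pool.Agent.Results.MP_7e9a3a_nt.RandomDeletions

/-- The digit `a_(i+1)` of the fractional part of `x` in base `b` (the expansion that does not end
in an infinite run of the digit `b - 1`). -/
noncomputable def digit (b : ℕ) (x : ℝ) (i : ℕ) : ℤ := ⌊x * (b : ℝ) ^ (i + 1)⌋ % (b : ℤ)

/-- `x` is normal to base `b`. -/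
def NormalTo (b : ℕ) (x : ℝ) : Prop :=
  ∀ k : ℕ, 0 < k → ∀ w : Fin k → Fin b,
    Tendsto (fun n : ℕ => (((Finset.range n).filter
      (fun i : ℕ => ∀ j : Fin k, digit b x (i + (j : ℕ)) = (((w j : ℕ)) : ℤ))).card : ℝ) / (n : ℝ))
      atTop (nhds ((1 : ℝ) / (b : ℝ) ^ k))

/-- `x` is normal (to all bases). -/
def Normal (x : ℝ) : Prop := ∀ b : ℕ, 2 ≤ b → NormalTo b x

/-- The sum of `1 / n!` over the `n` in `A`. -/
noncomputable def factorialSum (A : Set ℕ) : ℝ := ∑' n, A.indicator (fun n => 1 / (n.factorial : ℝ)) n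

/-- **Theorem.** Let `A 0, A 1, …` be independent events with `κ / n ≤ P (A n) ≤ 1 - κ / n` for some
`κ > 0` and all large `n`. For every real `x` and all signs `σ n = ± 1`, almost surely the number
`x + ∑ σ n / n!`, the sum over the `n` for which `A n` occurs, is normal. In particular (`x = e`,
`σ n = -1`): if the terms of `e = ∑ 1 / n!` are deleted independently, the `n`-th one with
probability `κ / n`, then almost surely the sum of the terms that are left is normal. -/
theorem result (Ω : Type) [MeasurableSpace Ω] (P : Measure Ω) [IsProbabilityMeasure P]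
    (A : ℕ → Set Ω) (hA : ∀ n, MeasurableSet (A n)) (hind : iIndepSet A P) (κ : ℝ) (hκ : 0 < κ)
    (hκA : ∀ᶠ n : ℕ in atTop, κ / n ≤ P.real (A n) ∧ P.real (A n) ≤ 1 - κ / n) :
    (∀ x : ℝ, ∀ σ : ℕ → ℤ, (∀ n, σ n = 1 ∨ σ n = -1) →
      ∀ᵐ ω ∂P, Normal (x + ∑' n : ℕ, (A n).indicator (fun _ => (σ n : ℝ) / n.factorial) ω)) ∧
    ∀ᵐ ω ∂P, Normal (factorialSum {n | ω ∉ A n}) := by
  have hs : ∀ A : Set ℕ, Summable (A.indicator fun n => 1 / (n.factorial : ℝ)) := fun A =>
    H41.Rand.summ_fact.indicator A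
  have hcompl : ∀ A : Set ℕ, factorialSum Aᶜ = (∑' n : ℕ, 1 / (n.factorial : ℝ)) - factorialSum A := by
    intro A
    rw [eq_sub_iff_add_eq]
    unfold factorialSum
    rw [← (hs Aᶜ).tsum_add (hs A)]
    refine tsum_congr fun n => ?_
    exact Set.indicator_compl_add_self_apply A (fun n => 1 / (n.factorial : ℝ)) n
  have main : ∀ x : ℝ, ∀ σ : ℕ → ℤ, (∀ n, σ n = 1 ∨ σ n = -1) →
      ∀ᵐ ω ∂P, Normal (x + ∑' n : ℕ, (A n).indicator (fun _ => (σ n : ℝ) / n.factorial) ω) := by
    intro x σ hσ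
    have h1 : ∀ᵐ ω ∂P, ∀ b : ℕ, 2 ≤ b → ∀ h : ℤ, h ≠ 0 → Tendsto (H41.SW.avg (H41.SW.ex b
        (x + ∑' n, H41.Rand.fE σ n ((A n).indicator (fun _ => 1) ω)) h)) atTop (nhds 0) := by
      rw [ae_all_iff]
      intro b
      rw [ae_all_iff]
      intro hb
      rw [ae_all_iff]
      intro h
      rw [ae_all_iff]
      intro hh
      exact H41.Rand.events_sum P A hA hind κ hκ hκA σ hσ x b hb h hh
    filter_upwards [h1] with ω hω
    intro b hb
    have e1 : ∑' n : ℕ, (A n).indicator (fun _ => (σ n : ℝ) / n.factorial) ω =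
        ∑' n, H41.Rand.fE σ n ((A n).indicator (fun _ => 1) ω) := by
      refine tsum_congr fun n => ?_
      unfold H41.Rand.fE
      by_cases h2 : ω ∈ A n <;> simp [h2]
    rw [e1]
    exact H41.SW.normal_of b hb _ fun h hh => hω b hb h hh
  refine ⟨main, ?_⟩
  filter_upwards [main (∑' n : ℕ, 1 / (n.factorial : ℝ)) (fun _ => -1) fun _ => Or.inr rfl] with ω hω
  have e1 : factorialSum {n | ω ∉ A n} = (∑' n : ℕ, 1 / (n.factorial : ℝ)) +
      ∑' n : ℕ, (A n).indicator (fun _ => (((-1 : ℤ) : ℤ) : ℝ) / n.factorial) ω := by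
    have e2 : {n | ω ∉ A n} = {n | ω ∈ A n}ᶜ := rfl
    rw [e2, hcompl, sub_eq_add_neg]
    congr 1
    unfold factorialSum
    rw [← tsum_neg]
    refine tsum_congr fun n => ?_
    by_cases h2 : ω ∈ A n
    · rw [Set.indicator_of_mem h2, Set.indicator_of_mem (show n ∈ {n | ω ∈ A n} from h2)]
      push_cast
      ring
    · rw [Set.indicator_of_notMem h2, Set.indicator_of_notMem (show n ∉ {n | ω ∈ A n} from h2), neg_zero]
  rw [e1]
  exact hω

end Pool.Agent.Results.MP_7e9a3a_nt.RandomDeletions
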