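import Mathlib
import Pool.Agent.H41.Rand.Cantor

/-! # Very sparse changes make `e`, `π`, `√2` and any other real number normal -/

set_option autoImplicit false

open Filter

namespace Pool.Agent.Results.MP_7e9a3a_nt.SparseChanges

/-- The digit `a_(i+1)` of the fractional part of `x` in base `b` (the expansion that does not end
in an infinite run of the digit `b - 1`). -/
noncomputable def digit (b : ℕ) (x : ℝ) (i : ℕ) : ℤ := ⌊x * (b : ℝ) ^ (i + 1)⌋ % (b : ℤ)

/-- `x` is normal to base `b`. -/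
def NormalTo (b : ℕ) (x : ℝ) : Prop :=
  ∀ k : ℕ, 0 < k → ∀ w : Fin k → Fin b,
    Tendsto (fun n : ℕ => (((Finset.range n).filter
      (fun i : ℕ => ∀ j : Fin k, digit b x (i + (j : ℕ)) = (((w j : ℕ)) : ℤ))).card : ℝ) / (n : ℝ))
      atTop (nhds ((1 : ℝ) / (b : ℝ) ^ k))

/-- **Theorem.** There is a constant `C` with the following property. Let `q 1 ≥ 1` and
`q 2, q 3, … ≥ 2` be integers with `log q n = o(n)`, let `σ n = ± 1`, and let `T` be a countable set
of real numbers (for instance `T = {e, π, √2}`). Then there is a set `A` of positive integers with at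
most `C log log N` elements up to `N` for all `N ≥ 3`, such that for all `x` in `T` the number
`x + ∑_{n ∈ A} σ n / (q 1 ⋯ q n)` is normal to every base `b` for which some prime that does not
divide `b` divides a `q j` in every long enough interval of indices `j`. For `q n = n` this is every
base: `x + ∑_{n ∈ A} σ n / n!` is absolutely normal. For constant `q n = q` it is every base not
divisible by all primes that divide `q`. -/
theorem result : ∃ C : ℝ, 0 < C ∧ ∀ q : ℕ → ℕ, (∀ n, 1 ≤ n → 1 ≤ q n) → (∀ n, 2 ≤ n → 2 ≤ q n) →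
    Tendsto (fun n : ℕ => Real.log (q n) / n) atTop (nhds 0) →
    ∀ σ : ℕ → ℤ, (∀ n, σ n = 1 ∨ σ n = -1) → ∀ T : Set ℝ, T.Countable → ∃ A : Set ℕ, 0 ∉ A ∧
    (∀ N : ℕ, 3 ≤ N → ((A ∩ Set.Icc 1 N).ncard : ℝ) ≤ C * Real.log (Real.log N)) ∧
    ∀ x ∈ T, ∀ b : ℕ, 2 ≤ b →
      (∃ p : ℕ, p.Prime ∧ ¬ p ∣ b ∧ ∃ g : ℕ, ∀ n, ∃ j, n < j ∧ j ≤ n + g ∧ p ∣ q j) →
      NormalTo b (x + ∑' n, A.indicator (fun n => (σ n : ℝ) / (∏ i ∈ Finset.Icc 1 n, q i : ℕ)) n) :=
  H41.Rand.sparse_cantor

end Pool.Agent.Results.MP_7e9a3a_nt.SparseChanges
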