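import Mathlib
import Pool.Agent.H41.RM.Exist2
import Pool.Agent.H41.Lib.Q263.CM.Cst

/-! # Products of `e`, `π` and `√2` with sparse random numbers -/

set_option autoImplicit false

open MeasureTheory ProbabilityTheory Filter

namespace Pool.Agent.Results.MP_7e9a3a_nt.SparseMultiples

/-- The digit `a_(i+1)` of the fractional part of `x` in base `b` (the expansion that does not end
in an infinite run of the digit `b - 1`). -/
noncomputable def digit (b : ℕ) (x : ℝ) (i : ℕ) : ℤ := ⌊x * (b : ℝ) ^ (i + 1)⌋ % (b : ℤ)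

/-- `x` is normal to base `b`. -/
def NormalTo (b : ℕ) (x : ℝ) : Prop :=
  ∀ k : ℕ, 0 < k → ∀ w : Fin k → Fin b,
    Tendsto (fun n : ℕ => (((Finset.range n).filter
      (fun i : ℕ => ∀ j : Fin k, digit b x (i + (j : ℕ)) = (((w j : ℕ)) : ℤ))).card : ℝ) / (n : ℝ))
      atTop (nhds ((1 : ℝ) / (b : ℝ) ^ k))

/-- `x` is normal (to all bases). -/
def Normal (x : ℝ) : Prop := ∀ b : ℕ, 2 ≤ b → NormalTo b x

/-- The number with the base `b` digit one at the place `j + 1` for the `j` in `A` and the digit zero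
at all other places. -/
noncomputable def ones (b : ℕ) (A : Set ℕ) : ℝ := ∑' j, A.indicator (fun j => 1 / (b : ℝ) ^ (j + 1)) j

/-- **Theorem.**
(1) `e`, `π` and `√2` are irrational and not Liouville numbers.
(2) Let `x` be such a number, `y` any real number, `b ≥ 2`, and let `A 0, A 1, …` be independent
events such that `P (A j) (1 - P (A j)) log j` tends to infinity (the probabilities may tend to
zero). Then almost surely `y + x ∑ b ^ (-j-1)`, the sum over the `j` for which `A j` occurs, is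
normal to all bases. If `x ≠ 0` is any real number, it is almost surely normal to all bases which
are multiplicatively independent of `b`.
(3) For every countable set `T` of pairs `(x, y)` there is one set `A` with at most
`N log log N / log N` elements below `N` such that for all `b ≥ 2` and all `(x, y)` in `T`, where `x`
is irrational and not a Liouville number, `y + x ∑ b ^ (-j-1)`, the sum over the `j` in `A`, is
normal to all bases.
(4) The rate in (2) is sharp: for every `b` there is an irrational number `x` which is not a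
Liouville number such that for all `ε > 0` there is `κ > 0` with this property: if
`P (A j) ≤ κ / log (j + 2)` for all `j`, then `x ∑ b ^ (-j-1)` is normal to base `b` with probability
at most `ε`.
(5) Liouville numbers have to be excluded as soon as the probabilities tend to zero: if `p j → 0`,
there is an irrational `x` such that `x ∑ b ^ (-j-1)` is normal to base `b` with probability zero
whenever `P (A j) ≤ p j` for all `j`. -/
theorem result :
    (∀ x ∈ ({Real.exp 1, Real.pi, √2} : Set ℝ), Irrational x ∧ ¬ Liouville x) ∧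
    (∀ (Ω : Type) [MeasurableSpace Ω] (P : Measure Ω) [IsProbabilityMeasure P] (A : ℕ → Set Ω),
      (∀ j, MeasurableSet (A j)) → iIndepSet A P →
      Tendsto (fun j : ℕ => P.real (A j) * (1 - P.real (A j)) * Real.log j) atTop atTop →
      ∀ b : ℕ, 2 ≤ b → ∀ x y : ℝ,
        (Irrational x → ¬ Liouville x → ∀ᵐ ω ∂P, Normal (y + x * ones b {j | ω ∈ A j})) ∧
        (x ≠ 0 → ∀ᵐ ω ∂P, ∀ q : ℕ, 2 ≤ q → (∀ m n : ℕ, 0 < m → 0 < n → b ^ m ≠ q ^ n) →
          NormalTo q (y + x * ones b {j | ω ∈ A j}))) ∧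
    (∀ T : Set (ℝ × ℝ), T.Countable → ∃ A : Set ℕ,
      (∀ᶠ N : ℕ in atTop, ((A ∩ Set.Iio N).ncard : ℝ) ≤ N * Real.log (Real.log N) / Real.log N) ∧
      ∀ b : ℕ, 2 ≤ b → ∀ z ∈ T, Irrational z.1 → ¬ Liouville z.1 → Normal (z.2 + z.1 * ones b A)) ∧
    (∀ b : ℕ, 2 ≤ b → ∃ x : ℝ, Irrational x ∧ ¬ Liouville x ∧ ∀ ε : ℝ, 0 < ε → ∃ κ : ℝ, 0 < κ ∧
      ∀ (Ω : Type) [MeasurableSpace Ω] (P : Measure Ω) [IsProbabilityMeasure P] (A : ℕ → Set Ω),
        (∀ j, MeasurableSet (A j)) → (∀ j : ℕ, P.real (A j) ≤ κ / Real.log ((j : ℝ) + 2)) →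
        P {ω | NormalTo b (x * ones b {j | ω ∈ A j})} ≤ ENNReal.ofReal ε) ∧
    (∀ b : ℕ, 2 ≤ b → ∀ p : ℕ → ℝ, Tendsto p atTop (nhds 0) → ∃ x : ℝ, Irrational x ∧
      ∀ (Ω : Type) [MeasurableSpace Ω] (P : Measure Ω) [IsProbabilityMeasure P] (A : ℕ → Set Ω),
        (∀ j, MeasurableSet (A j)) → (∀ j : ℕ, P.real (A j) ≤ p j) →
        P {ω | NormalTo b (x * ones b {j | ω ∈ A j})} = 0) := by
  have key : ∀ (Ω : Type) (A : ℕ → Set Ω) (b : ℕ) (x : ℝ) (ω : Ω),
      x / b * H41.RM.CC (H41.RM.xi A) b ω = x * ones b {j | ω ∈ A j} := by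
    intro Ω A b x ω
    rw [div_mul_eq_mul_div, mul_div_assoc]
    congr 1
    unfold H41.RM.CC ones
    rw [← tsum_div_const]
    refine tsum_congr fun j => ?_
    unfold H41.RM.xi
    by_cases h : ω ∈ A j
    · rw [Set.indicator_of_mem h, Set.indicator_of_mem (show j ∈ {j | ω ∈ A j} from h), pow_succ,
        div_div]
    · rw [Set.indicator_of_notMem h, Set.indicator_of_notMem (show j ∉ {j | ω ∈ A j} from h)]
      simp
  refine ⟨?_, ?_, ?_, ?_, ?_⟩
  · intro x hx
    rcases hx with rfl | rfl | hx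
    · exact ⟨Pool.Agent.Q263.CM.irr_e, Pool.Agent.Q263.CM.nl_e⟩
    · exact ⟨irrational_pi, Pool.Agent.Q263.CM.nl_pi⟩
    · rw [Set.mem_singleton_iff] at hx
      subst hx
      exact ⟨irrational_sqrt_two, Pool.Agent.Q263.CM.nl_sqrt⟩
  · intro Ω _ P _ A hA hind hv b hb x y
    have hb0 : (b : ℝ) ≠ 0 := by exact_mod_cast (by omega : b ≠ 0)
    have hbq : ((1 : ℚ) / b) ≠ 0 := by
      have : (b : ℚ) ≠ 0 := by exact_mod_cast (by omega : b ≠ 0)
      positivity
    have e1 : x / b = x * (((1 : ℚ) / b : ℚ) : ℝ) := by push_cast; ring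
    constructor
    · intro hx hL
      have hx0 : x ≠ 0 := hx.ne_zero
      have h1 : ∀ᵐ ω ∂P, ∀ q : ℕ, 2 ≤ q → ∀ h : ℤ, h ≠ 0 →
          Tendsto (H41.SW.avg (H41.SW.ex q (y + x / b * H41.RM.CC (H41.RM.xi A) b ω) h)) atTop (nhds 0) := by
        rw [ae_all_iff]; intro q
        rw [ae_all_iff]; intro hq
        rw [ae_all_iff]; intro h
        rw [ae_all_iff]; intro hh
        refine H41.RM.weyl_events P A hA hind hv b q hb hq (x / b) y (div_ne_zero hx0 hb0) ?_ h hh
        right
        rw [e1]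
        exact ⟨hx.mul_ratCast hbq, fun h5 => hL (H41.RM.liouville_mul_rat _ _ hbq h5)⟩
      filter_upwards [h1] with ω hω
      intro q hq
      have h2 := H41.SW.normal_of q hq _ (hω q hq)
      rw [key] at h2
      exact h2
    · intro hx0
      have h1 : ∀ᵐ ω ∂P, ∀ q : ℕ, 2 ≤ q → (∀ m n : ℕ, 0 < m → 0 < n → b ^ m ≠ q ^ n) →
          ∀ h : ℤ, h ≠ 0 →
          Tendsto (H41.SW.avg (H41.SW.ex q (y + x / b * H41.RM.CC (H41.RM.xi A) b ω) h)) atTop (nhds 0) := by
        rw [ae_all_iff]; intro q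
        rw [ae_all_iff]; intro hq
        rw [ae_all_iff]; intro hdep
        rw [ae_all_iff]; intro h
        rw [ae_all_iff]; intro hh
        exact H41.RM.weyl_events P A hA hind hv b q hb hq (x / b) y (div_ne_zero hx0 hb0)
          (Or.inl hdep) h hh
      filter_upwards [h1] with ω hω
      intro q hq hdep
      have h2 := H41.SW.normal_of q hq _ (hω q hq hdep)
      rw [key] at h2
      exact h2
  · intro T hT
    obtain ⟨A, hA1, hA2⟩ := H41.RM.exists_sparse T hT
    refine ⟨A, hA1, ?_⟩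
    intro b hb z hz hirr hL q hq
    exact hA2 b hb q hq z hz hirr.ne_zero (Or.inr ⟨hirr, hL⟩)
  · intro b hb
    refine ⟨H41.RM.sx b fun k => 2 ^ k, H41.RM.irr_two b hb, H41.RM.nonliou_two b hb, ?_⟩
    intro ε hε
    obtain ⟨κ, hκ, h1⟩ := H41.RM.sharp_log b hb ε hε
    refine ⟨κ, hκ, ?_⟩
    intro Ω _ P _ A hA hp
    have h2 := h1 Ω P A hA hp
    simp_rw [key] at h2
    exact h2
  · intro b hb p hp
    obtain ⟨x, hx, h1⟩ := H41.RM.sharp_zero b hb p hp
    refine ⟨x, hx, ?_⟩
    intro Ω _ P _ A hA hpA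
    have h2 := h1 Ω P A hA hpA
    simp_rw [key] at h2
    exact h2

end Pool.Agent.Results.MP_7e9a3a_nt.SparseMultiples
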